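import Pool.Agent.H89.TRI.Lib

/-!
# IBP (block B of project TRI): integration by parts in terms of `facI`
-/

open MvPolynomial

namespace Pool.TRI

private noncomputable def BIBP_w (α : Fin 3 →₀ ℕ) : ℝ :=
  (((α 0).factorial * (α 1).factorial * (α 2).factorial : ℕ) : ℝ)

private theorem BIBP_sum (F : MP) (S : Finset (Fin 3 →₀ ℕ)) (h : F.support ⊆ S) :
    facI F = ∑ α ∈ S, coeff α F * BIBP_w α := by
  unfold facI
  refine Finset.sum_subset h fun α _ hα => ?_
  rw [notMem_support_iff.1 hα, zero_mul]

private theorem BIBP_add (F G : MP) : facI (F + G) = facI F + facI G := by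
  classical
  rw [BIBP_sum F (F.support ∪ G.support) Finset.subset_union_left,
    BIBP_sum G (F.support ∪ G.support) Finset.subset_union_right,
    BIBP_sum (F + G) (F.support ∪ G.support) MvPolynomial.support_add, ← Finset.sum_add_distrib]
  refine Finset.sum_congr rfl fun α _ => ?_
  rw [coeff_add, add_mul]

private theorem BIBP_neg (F : MP) : facI (-F) = -facI F := by
  have h := BIBP_add F (-F)
  have h0 : facI (0 : MP) = 0 := by simp [facI]
  rw [add_neg_cancel, h0] at h
  linarith

private theorem BIBP_sub (F G : MP) : facI (F - G) = facI F - facI G := by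
  rw [sub_eq_add_neg, BIBP_add, BIBP_neg]; ring

private theorem BIBP_mon (α : Fin 3 →₀ ℕ) (c : ℝ) : facI (monomial α c) = c * BIBP_w α := by
  classical
  rw [BIBP_sum (monomial α c) {α} MvPolynomial.support_monomial_subset, Finset.sum_singleton,
    coeff_monomial, if_pos rfl]

private theorem BIBP_w_succ (β : Fin 3 →₀ ℕ) (i : Fin 3) :
    BIBP_w (Finsupp.single i 1 + β) = ((β i + 1 : ℕ) : ℝ) * BIBP_w β := by
  unfold BIBP_w
  rw [← Nat.cast_mul]
  congr 1
  fin_cases i <;> simp [Finsupp.single_apply, Nat.factorial_succ, add_comm 1] <;> ring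

private theorem BIBP_deriv (i : Fin 3) (H : MP) : facI (pderiv i (X i * H)) = facI (X i * H) := by
  induction H using MvPolynomial.induction_on' with
  | monomial β c =>
    have hX : (X i : MP) * monomial β c = monomial (Finsupp.single i 1 + β) c := by
      rw [X, monomial_mul, one_mul]
    rw [hX, pderiv_monomial, BIBP_mon, BIBP_mon, BIBP_w_succ]
    have e : Finsupp.single i 1 + β - Finsupp.single i 1 = β := by
      rw [add_comm]; exact add_tsub_cancel_right _ _
    rw [e]
    have e2 : ((Finsupp.single i 1 + β : Fin 3 →₀ ℕ) i) = β i + 1 := by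
      simp [add_comm]
    rw [e2]
    ring
  | add p q hp hq =>
    rw [mul_add, map_add, BIBP_add, BIBP_add, hp, hq]

private theorem BIBP_Dk (k : Fin 3) (H : MP) : facI (Dk k (X 0 * X 1 * X 2 * H)) = 0 := by
  have key : ∀ i : Fin 3, facI (pderiv i (X 0 * X 1 * X 2 * H : MP)) = facI (X 0 * X 1 * X 2 * H : MP) := by
    intro i
    have : ∃ H' : MP, (X 0 * X 1 * X 2 * H : MP) = X i * H' := by
      fin_cases i
      · exact ⟨X 1 * X 2 * H, by simp; ring⟩
      · exact ⟨X 0 * X 2 * H, by simp; ring⟩
      · exact ⟨X 0 * X 1 * H, by simp; ring⟩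
    obtain ⟨H', hH'⟩ := this
    rw [hH']
    exact BIBP_deriv i H'
  unfold Dk
  rw [BIBP_sub, key, key, sub_self]

theorem ibp : IBPStmt := by
  intro ψ k
  set F : MP := X 0 * X 1 * X 2 * ψ with hF
  have h := BIBP_Dk k (ψ * Dk k F)
  have e1 : (X 0 * X 1 * X 2 * (ψ * Dk k F) : MP) = F * Dk k F := by rw [hF]; ring
  have e2 : Dk k (F * Dk k F) = (Dk k F) ^ 2 + F * Dk k (Dk k F) := by
    unfold Dk
    simp only [Derivation.leibniz, smul_eq_mul]
    ring
  rw [e1, e2, BIBP_add] at h
  linarith

end Pool.TRI
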