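import Pool.Agent.H89.TRI.Lib

/-!
# PERM (block B of project TRI): relabelling of the vertices
-/

open MeasureTheory Set Filter Topology
open scoped Real ContDiff Laplacian

namespace Pool.TRI

private theorem BPERM_idx : ∀ (e : Equiv.Perm (Fin 3)) (k : Fin 3),
    (e (k + 1) = e k + 1 ∧ e (k + 2) = e k + 2) ∨ (e (k + 1) = e k + 2 ∧ e (k + 2) = e k + 1) := by
  decide

private theorem BPERM_im {T : Set ℂ} (B : Bary T) (i j : Fin 3) (h : i ≠ j) :
    (B.g i * (starRingEnd ℂ) (B.g j)).im ≠ 0 := by
  have hg : B.g 2 = - B.g 0 - B.g 1 := by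
    have := B.sum_g
    linear_combination this
  have h0 := B.indep
  intro h1
  apply h0
  fin_cases i <;> fin_cases j
  · exact absurd rfl h
  · exact h1
  · simp [hg, Complex.mul_im] at h1 ⊢
    linarith
  · simp [Complex.mul_im] at h1 ⊢
    linarith
  · exact absurd rfl h
  · simp [hg, Complex.mul_im] at h1 ⊢
    linarith
  · simp [hg, Complex.mul_im] at h1 ⊢
    linarith
  · simp [hg, Complex.mul_im] at h1 ⊢
    linarith
  · exact absurd rfl h

theorem perm : PERMStmt := by
  intro T B e
  refine ⟨⟨fun k => B.g (e k), fun k => B.b (e k), ?_, ?_, ?_, ?_⟩, ?_⟩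
  · have h := Equiv.sum_comp e B.g
    rw [Fin.sum_univ_three, Fin.sum_univ_three] at h
    rw [h]; exact B.sum_g
  · have h := Equiv.sum_comp e B.b
    rw [Fin.sum_univ_three, Fin.sum_univ_three] at h
    rw [h]; exact B.sum_b
  · exact BPERM_im B _ _ (fun h => by simpa using e.injective h)
  · intro z
    rw [B.mem_iff z]
    constructor
    · intro h k; exact h (e k)
    · intro h k
      have := h (e.symm k)
      simpa using this
  · intro k
    simp only [Bary.c]
    rcases BPERM_idx e k with ⟨h1, h2⟩ | ⟨h1, h2⟩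
    · rw [h1, h2]
    · rw [h1, h2]
      simp [Complex.mul_re]
      ring

end Pool.TRI
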