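import Pool.Agent.H89.TRI.Lib

/-!
# DKE (block B of project TRI): polynomials as functions
-/

open MeasureTheory Set Filter Topology MvPolynomial
open scoped Real ContDiff Laplacian

namespace Pool.TRI

private theorem DKE_contDiff (F : MP) : ContDiff ℝ ∞ (fun x : Fin 3 → ℝ => eval x F) := by
  induction F using MvPolynomial.induction_on with
  | C a =>
    simp only [eval_C]
    exact contDiff_const
  | add p q hp hq =>
    simp only [map_add]
    exact hp.add hq
  | mul_X p i hp =>
    simp only [map_mul, eval_X]
    exact hp.mul (contDiff_apply ℝ ℝ i)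

private theorem DKE_fderiv (F : MP) (x v : Fin 3 → ℝ) :
    fderiv ℝ (fun y : Fin 3 → ℝ => eval y F) x v = ∑ i, v i * eval x (pderiv i F) := by
  induction F using MvPolynomial.induction_on with
  | C a =>
    simp
  | add p q hp hq =>
    have h1 : DifferentiableAt ℝ (fun y : Fin 3 → ℝ => eval y p) x :=
      ((DKE_contDiff p).differentiable (by simp)).differentiableAt
    have h2 : DifferentiableAt ℝ (fun y : Fin 3 → ℝ => eval y q) x :=
      ((DKE_contDiff q).differentiable (by simp)).differentiableAt
    have e : (fun y : Fin 3 → ℝ => eval y (p + q)) = fun y => eval y p + eval y q := by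
      funext y; simp
    rw [e, fderiv_fun_add h1 h2]
    simp only [map_add, mul_add, Finset.sum_add_distrib]
    rw [← hp, ← hq]
    rfl
  | mul_X p j hp =>
    have h1 : DifferentiableAt ℝ (fun y : Fin 3 → ℝ => eval y p) x :=
      ((DKE_contDiff p).differentiable (by simp)).differentiableAt
    have h2 : HasFDerivAt (fun y : Fin 3 → ℝ => y j) (ContinuousLinearMap.proj j : (Fin 3 → ℝ) →L[ℝ] ℝ) x :=
      hasFDerivAt_apply j x
    have e : (fun y : Fin 3 → ℝ => eval y (p * X j)) = fun y => eval y p * y j := by
      funext y; simp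
    rw [e, fderiv_fun_mul h1 h2.differentiableAt, h2.fderiv]
    have h3 : ∀ i : Fin 3, v i * eval x (pderiv i (p * X j)) =
        v i * eval x (pderiv i p) * x j + eval x p * (v i * (Pi.single (M := fun _ => ℝ) i (1 : ℝ) j)) := by
      intro i
      rw [Derivation.leibniz, pderiv_X]
      simp only [smul_eq_mul, map_add, map_mul, eval_X]
      have : eval x (Pi.single (M := fun _ => MP) i (1 : MP) j) = (Pi.single (M := fun _ => ℝ) i (1 : ℝ) j) := by
        by_cases h : j = i
        · subst h; simp
        · simp [h]
      rw [this]; ring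
    simp only [h3, Finset.sum_add_distrib]
    rw [← Finset.sum_mul, ← Finset.mul_sum, ← hp]
    have h4 : ∑ i : Fin 3, v i * (Pi.single (M := fun _ => ℝ) i (1 : ℝ) j) = v j := by
      rw [Finset.sum_eq_single j]
      · simp
      · intro b _ hb
        simp [Ne.symm hb]
      · intro h; exact absurd (Finset.mem_univ j) h
    rw [h4]
    simp
    ring

theorem dke : DKEStmt := by
  intro F
  refine ⟨DKE_contDiff F, fun k x => ?_⟩
  unfold A.DD evx Dk
  rw [DKE_fderiv]
  fin_cases k <;> simp [Fin.sum_univ_three] <;> ring

end Pool.TRI
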