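import Pool.Agent.H69.TRI.StmtsP

/-!
# EQM: the exit time of an equilateral triangle
-/

open MeasureTheory Set Filter Topology InnerProductSpace Metric
open scoped Real ComplexConjugate ContDiff Laplacian

namespace Pool.TRI.A

section EQM
variable {T : Set ℂ} (B : Bary T)

private theorem EQM_sum (z : ℂ) : B.x 0 z + B.x 1 z + B.x 2 z = 1 := by
  unfold Bary.x
  have h := B.sum_b
  have hg : B.g 2 = - B.g 0 - B.g 1 := by
    have := B.sum_g
    linear_combination this
  rw [hg]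
  simp [Complex.mul_re]
  linarith

private theorem EQM_cont (k : Fin 3) : Continuous (B.x k) := by
  unfold Bary.x; fun_prop

private theorem EQM_contDiff (k : Fin 3) : ContDiff ℝ ∞ (B.x k) := by
  have : B.x k = fun z => z.re * (B.g k).re + z.im * (B.g k).im + B.b k := by
    funext z; simp [Bary.x, Complex.mul_re]
  rw [this]
  have h1 : ContDiff ℝ ∞ (fun z : ℂ => z.re) := Complex.reCLM.contDiff
  have h2 : ContDiff ℝ ∞ (fun z : ℂ => z.im) := Complex.imCLM.contDiff
  fun_prop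

include B in
private theorem EQM_open : IsOpen T := by
  have : T = ⋂ k : Fin 3, {z | 0 < B.x k z} := by
    ext z
    simp only [mem_iInter, mem_ofPred_eq]
    exact B.mem_iff z
  rw [this]
  exact isOpen_iInter_of_finite fun k => isOpen_lt continuous_const (EQM_cont B k)

private theorem EQM_closure (z : ℂ) (hz : z ∈ closure T) (k : Fin 3) : 0 ≤ B.x k z := by
  have hc : IsClosed {z | 0 ≤ B.x k z} := isClosed_le continuous_const (EQM_cont B k)
  have hs : T ⊆ {z | 0 ≤ B.x k z} := fun w hw => ((B.mem_iff w).1 hw k).le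
  exact (closure_minimal hs hc) hz

private theorem EQM_frontier (z : ℂ) (hz : z ∈ frontier T) :
    (∀ k, 0 ≤ B.x k z) ∧ ∃ k, B.x k z = 0 := by
  have h1 := EQM_closure B z (frontier_subset_closure hz)
  refine ⟨h1, ?_⟩
  by_contra hne
  push Not at hne
  have : z ∈ T := (B.mem_iff z).2 fun k => lt_of_le_of_ne (h1 k) (Ne.symm (hne k))
  rw [(EQM_open B).frontier_eq] at hz
  exact hz.2 this

include B in
private theorem EQM_bdd : Bornology.IsBounded T := by
  -- `z * I * im(g1 conj g0) = (x0 - b0) g1 - (x1 - b1) g0`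
  set d : ℝ := (B.g 0 * conj (B.g 1)).im with hd
  have hd0 : d ≠ 0 := B.indep
  have key : ∀ z : ℂ, z * (d : ℂ) * Complex.I = (((B.x 0 z - B.b 0 : ℝ) : ℂ)) * B.g 1 * (-1) + (((B.x 1 z - B.b 1 : ℝ) : ℂ)) * B.g 0 := by
    intro z
    apply Complex.ext
    · simp [Bary.x, hd, Complex.mul_re, Complex.mul_im]; ring
    · simp [Bary.x, hd, Complex.mul_re, Complex.mul_im]; ring
  rw [isBounded_iff_forall_norm_le]
  refine ⟨((1 + |B.b 0|) * ‖B.g 1‖ + (1 + |B.b 1|) * ‖B.g 0‖) / |d|, fun z hz => ?_⟩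
  have hdp : 0 < |d| := abs_pos.2 hd0
  rw [le_div_iff₀ hdp]
  have hx := EQM_sum B z
  have hp := (B.mem_iff z).1 hz
  have hp' : ∀ k, 0 < B.x k z := hp
  have n1 : ‖z * (d : ℂ) * Complex.I‖ = ‖z‖ * |d| := by
    simp
  rw [← n1, key z]
  have a0 : |B.x 0 z - B.b 0| ≤ 1 + |B.b 0| := by
    have h0 := hp' 0; have h1 := hp' 1; have h2 := hp' 2
    calc |B.x 0 z - B.b 0| ≤ |B.x 0 z| + |B.b 0| := abs_sub _ _
      _ ≤ 1 + |B.b 0| := by
        rw [abs_of_pos h0]; linarith
  have a1 : |B.x 1 z - B.b 1| ≤ 1 + |B.b 1| := by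
    have h0 := hp' 0; have h1 := hp' 1; have h2 := hp' 2
    calc |B.x 1 z - B.b 1| ≤ |B.x 1 z| + |B.b 1| := abs_sub _ _
      _ ≤ 1 + |B.b 1| := by
        rw [abs_of_pos h1]; linarith
  calc ‖(((B.x 0 z - B.b 0 : ℝ) : ℂ)) * B.g 1 * (-1) + (((B.x 1 z - B.b 1 : ℝ) : ℂ)) * B.g 0‖
      ≤ ‖(((B.x 0 z - B.b 0 : ℝ) : ℂ)) * B.g 1 * (-1)‖ + ‖(((B.x 1 z - B.b 1 : ℝ) : ℂ)) * B.g 0‖ :=
        norm_add_le _ _
    _ = |B.x 0 z - B.b 0| * ‖B.g 1‖ + |B.x 1 z - B.b 1| * ‖B.g 0‖ := by
        rw [norm_mul, norm_mul, norm_mul, Complex.norm_real, Complex.norm_real]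
        simp
    _ ≤ _ := by
        gcongr

private theorem EQM_centroid : ∃ z ∈ T, ∀ k, B.x k z = 1 / 3 := by
  set d : ℝ := (B.g 0 * conj (B.g 1)).im with hd
  have hd0 : d ≠ 0 := B.indep
  set a0 : ℝ := 1 / 3 - B.b 0
  set a1 : ℝ := 1 / 3 - B.b 1
  obtain ⟨e, he⟩ : ∃ e : ℝ, d * e = 1 := ⟨d⁻¹, mul_inv_cancel₀ hd0⟩
  set z : ℂ := (-Complex.I) * ((a1 : ℂ) * B.g 0 - (a0 : ℂ) * B.g 1) * (e : ℂ) with hz
  have h0 : B.x 0 z = 1 / 3 := by
    have : (z * conj (B.g 0)).re = a0 := by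
      have e' : (z * conj (B.g 0)).re = a0 * d * e := by
        simp [hz, hd, Complex.mul_re, Complex.mul_im]; ring
      rw [e', mul_assoc, he, mul_one]
    unfold Bary.x
    rw [this]; ring
  have h1 : B.x 1 z = 1 / 3 := by
    have : (z * conj (B.g 1)).re = a1 := by
      have e' : (z * conj (B.g 1)).re = a1 * d * e := by
        simp [hz, hd, Complex.mul_re, Complex.mul_im]; ring
      rw [e', mul_assoc, he, mul_one]
    unfold Bary.x
    rw [this]; ring
  have h2 : B.x 2 z = 1 / 3 := by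
    have := EQM_sum B z
    rw [h0, h1] at this
    linarith
  have hk : ∀ k, B.x k z = 1 / 3 := by
    intro k
    fin_cases k
    · exact h0
    · exact h1
    · exact h2
  refine ⟨z, (B.mem_iff z).2 fun k => ?_, hk⟩
  have : 0 < B.x k z := by rw [hk k]; norm_num
  exact this

private theorem EQM_cpos (h01 : B.c 0 = B.c 1) (h12 : B.c 1 = B.c 2) : 0 < B.c 0 := by
  have hg : B.g 2 = - B.g 0 - B.g 1 := by
    have := B.sum_g
    linear_combination this
  have hs : 2 * (B.c 0 + B.c 1 + B.c 2) =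
      Complex.normSq (B.g 0) + Complex.normSq (B.g 1) + Complex.normSq (B.g 2) := by
    have e1 : (0 : Fin 3) + 1 = 1 := rfl
    have e2 : (0 : Fin 3) + 2 = 2 := rfl
    have e3 : (1 : Fin 3) + 1 = 2 := rfl
    have e4 : (1 : Fin 3) + 2 = 0 := rfl
    have e5 : (2 : Fin 3) + 1 = 0 := rfl
    have e6 : (2 : Fin 3) + 2 = 1 := rfl
    simp only [Bary.c, e1, e2, e3, e4, e5, e6, hg]
    simp [Complex.mul_re, Complex.normSq_apply]
    ring
  have hpos : 0 < Complex.normSq (B.g 0) := by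
    rw [Complex.normSq_pos]
    intro h
    apply B.indep
    rw [h]; simp
  have hn1 := Complex.normSq_nonneg (B.g 1)
  have hn2 := Complex.normSq_nonneg (B.g 2)
  linarith

end EQM

private noncomputable def EQM_P (x : Fin 3 → ℝ) : ℝ := x 0 * x 1 * x 2

private theorem EQM_P_contDiff : ContDiff ℝ ∞ EQM_P := by
  unfold EQM_P; fun_prop

private theorem EQM_eq : EQM_P = evx [(1, 1, 1, 1)] := by
  funext x
  simp [EQM_P, evx, mon]

private theorem EQM_DD (k : Fin 3) (x : Fin 3 → ℝ) : DD k (DD k EQM_P) x = -2 * x k := by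
  rw [EQM_eq]
  have h1 : DD k (evx [(1, 1, 1, 1)]) = evx (PX.dd k [(1, 1, 1, 1)]) := DD_evx k _
  rw [h1, DD_evx]
  fin_cases k <;> simp [PX.dd, PX.pd, PX.scale, evx, mon] <;> ring

theorem eqm (hM : MaxPStmt) (hL : LapBStmt) : EqMStmt := by
  intro T B u hu h01 h12
  have hc := EQM_cpos B h01 h12
  set c := B.c 0 with hcdef
  have hc1 : B.c 1 = c := h01.symm
  have hc2 : B.c 2 = c := by rw [← h12]; exact h01.symm
  have hTo := EQM_open B
  have hTb := EQM_bdd B
  set p : ℂ → ℝ := fun z => c⁻¹ * EQM_P (fun k => B.x k z) with hp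
  have hpC : ContDiff ℝ ∞ p := by
    have : ContDiff ℝ ∞ (fun z => fun k => B.x k z) := contDiff_pi.2 fun k => EQM_contDiff B k
    exact contDiff_const.mul (EQM_P_contDiff.comp this)
  have hpC2 : ContDiff ℝ 2 p := hpC.of_le (by norm_cast)
  have hlap : ∀ z, (Δ p) z = -2 := by
    intro z
    have h := hL T B (fun x => c⁻¹ * EQM_P x) ((contDiff_const.mul EQM_P_contDiff).of_le
      (by norm_cast)) z
    have e : p = fun z => (fun x => c⁻¹ * EQM_P x) (fun k => B.x k z) := rfl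
    rw [e, h]
    have hDD : ∀ k x, DD k (DD k fun x => c⁻¹ * EQM_P x) x = c⁻¹ * (-2 * x k) := by
      intro k x
      have hd : ∀ (a : ℝ) (G : (Fin 3 → ℝ) → ℝ), ContDiff ℝ ∞ G →
          DD k (fun x => a * G x) = fun x => a * DD k G x := by
        intro a G hG
        funext y
        unfold DD
        rw [fderiv_const_mul (hG.differentiable (by simp)).differentiableAt]
        simp
      have hG1 : ContDiff ℝ ∞ (DD k EQM_P) := by
        unfold DD
        have : ContDiff ℝ ∞ (fderiv ℝ EQM_P) := EQM_P_contDiff.fderiv_right (by simp)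
        exact this.clm_apply contDiff_const
      rw [hd _ _ EQM_P_contDiff, hd _ _ hG1]
      simp only []
      rw [EQM_DD]
    rw [Fin.sum_univ_three, hDD, hDD, hDD, hc1, hc2, ← hcdef]
    have hx := EQM_sum B z
    have hcc : c * c⁻¹ = 1 := mul_inv_cancel₀ hc.ne'
    calc c * (c⁻¹ * (-2 * B.x 0 z)) + c * (c⁻¹ * (-2 * B.x 1 z)) + c * (c⁻¹ * (-2 * B.x 2 z))
        = (c * c⁻¹) * (-2) * (B.x 0 z + B.x 1 z + B.x 2 z) := by ring
      _ = -2 := by rw [hcc, hx]; ring
  have hpf : ∀ z ∈ frontier T, p z = 0 := by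
    intro z hz
    obtain ⟨k, hk⟩ := (EQM_frontier B z hz).2
    simp only [hp, EQM_P]
    fin_cases k
    · have : B.x 0 z = 0 := hk
      rw [this]; ring
    · have : B.x 1 z = 0 := hk
      rw [this]; ring
    · have : B.x 2 z = 0 := hk
      rw [this]; ring
  have hulap : ∀ z ∈ T, (Δ u) z = -2 := by
    intro z hz
    have := hu.pde z hz
    linarith
  have hu2 : ∀ z ∈ T, ContDiffAt ℝ 2 u z := fun z hz => hu.smooth.contDiffAt (hTo.mem_nhds hz)
  have hle : ∀ z ∈ closure T, u z - p z ≤ 0 := by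
    apply hM T (fun z => u z - p z) hTo hTb (hu.cont.sub hpC.continuous.continuousOn)
      (hu.smooth.sub hpC2.contDiffOn)
    · intro z hz
      have e := ContDiffAt.laplacian_sub (hu2 z hz) hpC2.contDiffAt
      have e' : (Δ (u - p)) z = 0 := by
        rw [e]
        rw [hulap z hz, hlap z]; ring
      have : (fun z => u z - p z) = u - p := rfl
      rw [this, e']
    · intro z hz
      rw [hu.bdry z hz, hpf z hz]; simp
  have hge : ∀ z ∈ closure T, p z - u z ≤ 0 := by
    apply hM T (fun z => p z - u z) hTo hTb (hpC.continuous.continuousOn.sub hu.cont)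
      (hpC2.contDiffOn.sub hu.smooth)
    · intro z hz
      have e := ContDiffAt.laplacian_sub hpC2.contDiffAt (hu2 z hz)
      have e' : (Δ (p - u)) z = 0 := by
        rw [e]
        rw [hulap z hz, hlap z]; ring
      have : (fun z => p z - u z) = p - u := rfl
      rw [this, e']
    · intro z hz
      rw [hu.bdry z hz, hpf z hz]; simp
  have heq : ∀ z ∈ T, u z = p z := fun z hz =>
    le_antisymm (by linarith [hle z (subset_closure hz)]) (by linarith [hge z (subset_closure hz)])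
  have hmax : ∀ z ∈ T, p z ≤ c⁻¹ * (1 / 27) := by
    intro z hz
    simp only [hp]
    apply mul_le_mul_of_nonneg_left _ (inv_pos.2 hc).le
    have hx := EQM_sum B z
    have hpos : ∀ k, 0 < B.x k z := (B.mem_iff z).1 hz
    have h0 := hpos 0
    have h1 := hpos 1
    have h2 := hpos 2
    unfold EQM_P
    simp only []
    set a := B.x 0 z
    set b := B.x 1 z
    set d := B.x 2 z
    have key : 27 * (a * b * d) ≤ (a + b + d) ^ 3 := by
      nlinarith [mul_nonneg h0.le (sq_nonneg (a - b)), mul_nonneg h0.le (sq_nonneg (a - d)),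
        mul_nonneg h0.le (sq_nonneg (b - d)), mul_nonneg h1.le (sq_nonneg (a - b)),
        mul_nonneg h1.le (sq_nonneg (a - d)), mul_nonneg h1.le (sq_nonneg (b - d)),
        mul_nonneg h2.le (sq_nonneg (a - b)), mul_nonneg h2.le (sq_nonneg (a - d)),
        mul_nonneg h2.le (sq_nonneg (b - d))]
    rw [hx] at key
    linarith
  obtain ⟨z0, hz0, hz0x⟩ := EQM_centroid B
  have hz0p : p z0 = c⁻¹ * (1 / 27) := by
    simp only [hp, EQM_P, hz0x]; norm_num
  have hsup : sSup (u '' T) = c⁻¹ * (1 / 27) := by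
    apply IsGreatest.csSup_eq
    constructor
    · exact ⟨z0, hz0, by rw [heq z0 hz0, hz0p]⟩
    · rintro _ ⟨z, hz, rfl⟩
      rw [heq z hz]; exact hmax z hz
  rw [hsup, ← mul_assoc, mul_inv_cancel₀ hc.ne', one_mul]

end Pool.TRI.A
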