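import Pool.Agent.H89.TRI.Lib

/-!
# FPOS (block B of project TRI): positivity of the form `facI (F^2)`
-/

open MeasureTheory Set Filter Topology MvPolynomial
open scoped Real ContDiff Laplacian

namespace Pool.TRI

private theorem FPOS_cont (F : MP) : Continuous (fun x : Fin 3 → ℝ => evx x F) := by
  unfold evx
  exact MvPolynomial.continuous_eval F

/-- a nonnegative continuous function with `KI = 0` vanishes on the open simplex -/
private theorem FPOS_zero (G : (Fin 3 → ℝ) → ℝ) (hG : Continuous G) (h0 : ∀ x, 0 ≤ G x)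
    (hK : A.KI G = 0) (s t : ℝ) (hs : 0 < s) (ht : 0 < t) (hst : s + t < 1) :
    G ![s, t, 1 - s - t] = 0 := by
  unfold A.KI at hK
  have hcin : ∀ s : ℝ, Continuous fun t : ℝ => G ![s, t, 1 - s - t] := fun s => hG.comp (by fun_prop)
  have hcout : Continuous fun s : ℝ => ∫ t in (0 : ℝ)..(1 - s), G ![s, t, 1 - s - t] := by
    refine intervalIntegral.continuous_parametric_intervalIntegral_of_continuous ?_ (by fun_prop)
    exact hG.comp (by fun_prop)
  -- outer integral
  have h1 : (∫ t in (0 : ℝ)..(1 - s), G ![s, t, 1 - s - t]) = 0 := by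
    by_contra hne
    have hnn : ∀ r ∈ Ioc (0 : ℝ) 1, 0 ≤ ∫ t in (0 : ℝ)..(1 - r), G ![r, t, 1 - r - t] := by
      intro r hr
      exact intervalIntegral.integral_nonneg (by linarith [hr.2]) fun u _ => h0 _
    have hpos : 0 < ∫ t in (0 : ℝ)..(1 - s), G ![s, t, 1 - s - t] :=
      lt_of_le_of_ne (hnn s ⟨hs, by linarith⟩) (Ne.symm hne)
    have : 0 < ∫ s in (0 : ℝ)..1, ∫ t in (0 : ℝ)..(1 - s), G ![s, t, 1 - s - t] :=
      intervalIntegral.integral_pos (by norm_num) hcout.continuousOn hnn
        ⟨s, ⟨hs.le, by linarith⟩, hpos⟩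
    rw [hK] at this
    exact lt_irrefl _ this
  by_contra hne
  have hpos : 0 < G ![s, t, 1 - s - t] := lt_of_le_of_ne (h0 _) (Ne.symm hne)
  have : 0 < ∫ t in (0 : ℝ)..(1 - s), G ![s, t, 1 - s - t] :=
    intervalIntegral.integral_pos (by linarith) (hcin s).continuousOn (fun u _ => h0 _)
      ⟨t, ⟨ht.le, by linarith⟩, hpos⟩
  rw [h1] at this
  exact lt_irrefl _ this

private theorem FPOS_scale (d : ℕ) (F : MP) (hF : F.IsHomogeneous d) (c : ℝ) (x : Fin 3 → ℝ) :
    evx (fun i => c * x i) F = c ^ d * evx x F := by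
  unfold evx
  rw [MvPolynomial.eval_eq', MvPolynomial.eval_eq', Finset.mul_sum]
  refine Finset.sum_congr rfl fun α hα => ?_
  have hdeg : α 0 + α 1 + α 2 = d := by
    have h := hF (mem_support_iff.1 hα)
    rw [Finsupp.weight_apply, Finsupp.sum_fintype _ _ (by simp)] at h
    simpa [Fin.sum_univ_three] using h
  rw [Fin.prod_univ_three, Fin.prod_univ_three, ← hdeg]
  ring

theorem fpos (hK : KIFStmt) : FPOSStmt := by
  intro d F hF
  have h2 := hK (d * 2) (F ^ 2) (hF.pow 2)
  have e : (fun x => evx x (F ^ 2)) = fun x => evx x F ^ 2 := by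
    funext x; simp [evx]
  rw [e] at h2
  have hfac : (0 : ℝ) < ((d * 2 + 2).factorial : ℝ) := by positivity
  have hnn : 0 ≤ A.KI (fun x => evx x F ^ 2) := by
    unfold A.KI
    refine intervalIntegral.integral_nonneg (by norm_num) fun s hs => ?_
    exact intervalIntegral.integral_nonneg (by linarith [hs.2]) fun u _ => sq_nonneg _
  constructor
  · rw [h2] at hnn
    by_contra hneg
    push Not at hneg
    have : facI (F ^ 2) / ((d * 2 + 2).factorial : ℝ) < 0 := div_neg_of_neg_of_pos hneg hfac
    linarith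
  · intro h0
    rw [h0, zero_div] at h2
    have hz := FPOS_zero (fun x => evx x F ^ 2) ((FPOS_cont F).pow 2) (fun x => sq_nonneg _) h2
    have hall : ∀ x ∈ Set.pi univ (fun _ : Fin 3 => Ioi (0 : ℝ)), eval x F = eval x (0 : MP) := by
      intro x hx
      have hx' : ∀ i, 0 < x i := fun i => hx i (mem_univ i)
      have p0 := hx' 0
      have p1 := hx' 1
      have p2 := hx' 2
      set S : ℝ := x 0 + x 1 + x 2 with hS
      have hSp : 0 < S := by positivity
      have key := hz (x 0 / S) (x 1 / S) (by positivity) (by positivity) (by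
        rw [← add_div, div_lt_one hSp]; linarith)
      have e1 : (fun i => S * (![x 0 / S, x 1 / S, 1 - x 0 / S - x 1 / S] : Fin 3 → ℝ) i) = x := by
        funext i
        fin_cases i
        · simp; field_simp
        · simp; field_simp
        · simp; field_simp; rw [hS]; ring
      have e2 := FPOS_scale d F hF S ![x 0 / S, x 1 / S, 1 - x 0 / S - x 1 / S]
      rw [e1] at e2
      have e3 : evx ![x 0 / S, x 1 / S, 1 - x 0 / S - x 1 / S] F = 0 := by
        simpa using key
      rw [e3, mul_zero] at e2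
      unfold evx at e2
      rw [e2, map_zero]
    exact MvPolynomial.funext_set (fun _ : Fin 3 => Ioi (0 : ℝ)) (fun _ => Ioi_infinite 0) hall

end Pool.TRI
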