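import Pool.Agent.H69.TRI.StmtsP

/-!
# IBP: integration by parts on the simplex
-/

open MeasureTheory Set Filter Topology InnerProductSpace Metric
open scoped Real ComplexConjugate ContDiff Laplacian

namespace Pool.TRI.A

private def IBP_S (k : Fin 3) : Prop :=
  ∀ (F G : (Fin 3 → ℝ) → ℝ), ContDiff ℝ ∞ F → ContDiff ℝ ∞ G → VB G →
    KI (fun x => DD k F x * DD k G x) = - KI (fun x => DD k (DD k F) x * G x)

private theorem IBP_contDiff (k : Fin 3) {F : (Fin 3 → ℝ) → ℝ} (hF : ContDiff ℝ ∞ F) :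
    ContDiff ℝ ∞ (DD k F) := by
  unfold DD
  have : ContDiff ℝ ∞ (fderiv ℝ F) := hF.fderiv_right (by simp)
  exact this.clm_apply contDiff_const

private theorem IBP_hasDeriv (s t : ℝ) {F : (Fin 3 → ℝ) → ℝ} (hF : ContDiff ℝ ∞ F) :
    HasDerivAt (fun t : ℝ => F ![s, t, 1 - s - t]) (DD 0 F ![s, t, 1 - s - t]) t := by
  have hd : HasFDerivAt F (fderiv ℝ F ![s, t, 1 - s - t]) ![s, t, 1 - s - t] :=
    (hF.differentiable (by simp)).differentiableAt.hasFDerivAt
  have hc : HasDerivAt (fun t : ℝ => (![s, t, 1 - s - t] : Fin 3 → ℝ))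
      (Pi.single 1 1 - Pi.single 2 1 : Fin 3 → ℝ) t := by
    rw [hasDerivAt_pi]
    intro i
    fin_cases i
    · simpa using hasDerivAt_const t s
    · simpa using hasDerivAt_id' t
    · have := (hasDerivAt_id t).const_sub (1 - s)
      simpa using this
  exact hd.comp_hasDerivAt t hc

private theorem IBP_zero : IBP_S 0 := by
  intro F G hF hG hV
  unfold KI
  rw [← intervalIntegral.integral_neg]
  congr 1
  funext s
  have h1 : ∀ t ∈ uIcc (0 : ℝ) (1 - s), HasDerivAt (fun t : ℝ => DD 0 F ![s, t, 1 - s - t])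
      (DD 0 (DD 0 F) ![s, t, 1 - s - t]) t := fun t _ => IBP_hasDeriv s t (IBP_contDiff 0 hF)
  have h2 : ∀ t ∈ uIcc (0 : ℝ) (1 - s), HasDerivAt (fun t : ℝ => G ![s, t, 1 - s - t])
      (DD 0 G ![s, t, 1 - s - t]) t := fun t _ => IBP_hasDeriv s t hG
  have hcont : Continuous (fun t : ℝ => (![s, t, 1 - s - t] : Fin 3 → ℝ)) := by
    refine continuous_pi fun i => ?_
    fin_cases i
    · simpa using continuous_const
    · simpa using continuous_id'
    · have : Continuous fun t : ℝ => 1 - s - t := by fun_prop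
      simpa using this
  have i1 : IntervalIntegrable (fun t : ℝ => DD 0 (DD 0 F) ![s, t, 1 - s - t]) volume 0 (1 - s) :=
    ((IBP_contDiff 0 (IBP_contDiff 0 hF)).continuous.comp hcont).intervalIntegrable _ _
  have i2 : IntervalIntegrable (fun t : ℝ => DD 0 G ![s, t, 1 - s - t]) volume 0 (1 - s) :=
    ((IBP_contDiff 0 hG).continuous.comp hcont).intervalIntegrable _ _
  have := intervalIntegral.integral_mul_deriv_eq_deriv_mul h1 h2 i1 i2
  rw [this]
  have z1 : G ![s, 1 - s, 1 - s - (1 - s)] = 0 := by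
    apply hV
    · simp
    · exact ⟨2, by simp⟩
  have z2 : G ![s, 0, 1 - s - 0] = 0 := by
    apply hV
    · simp
    · exact ⟨1, by simp⟩
  rw [z1, z2]
  simp

private def IBP_rot (F : (Fin 3 → ℝ) → ℝ) : (Fin 3 → ℝ) → ℝ := fun x => F (fun i => x (i + 1))

private noncomputable def IBP_L : (Fin 3 → ℝ) →L[ℝ] (Fin 3 → ℝ) :=
  ContinuousLinearMap.pi fun i => ContinuousLinearMap.proj (i + 1)

private theorem IBP_rot_eq (F : (Fin 3 → ℝ) → ℝ) : IBP_rot F = F ∘ IBP_L := rfl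

private theorem IBP_rot_contDiff {F : (Fin 3 → ℝ) → ℝ} (hF : ContDiff ℝ ∞ F) :
    ContDiff ℝ ∞ (IBP_rot F) := by
  rw [IBP_rot_eq]
  exact hF.comp IBP_L.contDiff

private theorem IBP_rot_VB {F : (Fin 3 → ℝ) → ℝ} (hF : VB F) : VB (IBP_rot F) := by
  intro x hx hk
  apply hF
  · show x (0 + 1) + x (1 + 1) + x (2 + 1) = 1
    have e1 : (0 : Fin 3) + 1 = 1 := rfl
    have e2 : (1 : Fin 3) + 1 = 2 := rfl
    have e3 : (2 : Fin 3) + 1 = 0 := rfl
    rw [e1, e2, e3]; linarith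
  · obtain ⟨k, hk⟩ := hk
    exact ⟨k - 1, by simpa using hk⟩

private theorem IBP_rot_DD (k : Fin 3) {F : (Fin 3 → ℝ) → ℝ} (hF : ContDiff ℝ ∞ F) :
    DD (k + 1) (IBP_rot F) = IBP_rot (DD k F) := by
  funext x
  have hd : DifferentiableAt ℝ F (IBP_L x) := (hF.differentiable (by simp)).differentiableAt
  have : fderiv ℝ (F ∘ IBP_L) x = (fderiv ℝ F (IBP_L x)).comp IBP_L := by
    rw [fderiv_comp x hd IBP_L.differentiableAt, IBP_L.fderiv]
  unfold DD
  rw [IBP_rot_eq, this]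
  show fderiv ℝ F (IBP_L x) (IBP_L _) = fderiv ℝ F (IBP_L x) _
  congr 1
  funext i
  show (Pi.single (k + 1 + 1) 1 - Pi.single (k + 1 + 2) 1 : Fin 3 → ℝ) (i + 1) =
    (Pi.single (k + 1) 1 - Pi.single (k + 2) 1 : Fin 3 → ℝ) i
  fin_cases k <;> fin_cases i <;> simp

private theorem IBP_rot3 (F : (Fin 3 → ℝ) → ℝ) : IBP_rot (IBP_rot (IBP_rot F)) = F := by
  funext x
  show F _ = F x
  congr 1
  funext i
  fin_cases i <;> rfl

private theorem IBP_step (hP : PermStmt) (k : Fin 3) (h : IBP_S k) : IBP_S (k + 1) := by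
  intro F' G' hF' hG' hV
  obtain ⟨F, rfl, hF⟩ : ∃ F, F' = IBP_rot F ∧ ContDiff ℝ ∞ F :=
    ⟨IBP_rot (IBP_rot F'), (IBP_rot3 F').symm, IBP_rot_contDiff (IBP_rot_contDiff hF')⟩
  obtain ⟨G, rfl, hG, hVG⟩ : ∃ G, G' = IBP_rot G ∧ ContDiff ℝ ∞ G ∧ VB G :=
    ⟨IBP_rot (IBP_rot G'), (IBP_rot3 G').symm, IBP_rot_contDiff (IBP_rot_contDiff hG'),
      IBP_rot_VB (IBP_rot_VB hV)⟩
  rw [IBP_rot_DD k hF, IBP_rot_DD k hG, IBP_rot_DD k (IBP_contDiff k hF)]
  have e1 := (hP (fun x => DD k F x * DD k G x)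
    ((IBP_contDiff k hF).continuous.mul (IBP_contDiff k hG).continuous)).1
  have e2 := (hP (fun x => DD k (DD k F) x * G x)
    ((IBP_contDiff k (IBP_contDiff k hF)).continuous.mul hG.continuous)).1
  have e3 := h F G hF hG hVG
  show KI (fun x => DD k F (fun i => x (i + 1)) * DD k G (fun i => x (i + 1))) =
    - KI (fun x => DD k (DD k F) (fun i => x (i + 1)) * G (fun i => x (i + 1)))
  rw [e1, e2, e3]

theorem ibp (hP : PermStmt) : IbpStmt := by
  have h0 := IBP_zero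
  have h1 := IBP_step hP 0 h0
  have h2 := IBP_step hP 1 h1
  intro k
  fin_cases k
  · exact h0
  · exact h1
  · exact h2

end Pool.TRI.A
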