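import Pool.Agent.H89.TRI.Lib

/-!
# KIF (block B of project TRI): Dirichlet's formula for forms
-/

open MeasureTheory Set Filter Topology MvPolynomial
open scoped Real ContDiff Laplacian

namespace Pool.TRI

theorem kif (hD : A.DirStmt) : KIFStmt := by
  intro d F hF
  have hsum : ∀ S : Finset (Fin 3 →₀ ℕ),
      A.KI (fun x => ∑ α ∈ S, coeff α F * (x 0 ^ α 0 * x 1 ^ α 1 * x 2 ^ α 2)) =
        ∑ α ∈ S, coeff α F * ((((α 0).factorial * (α 1).factorial * (α 2).factorial : ℕ) : ℝ) /
          ((α 0 + α 1 + α 2 + 2).factorial : ℝ)) := by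
    classical
    intro S
    induction S using Finset.induction_on with
    | empty => simp [A.KI_zero]
    | insert β S hβ ih =>
      simp only [Finset.sum_insert hβ]
      have h1 : Continuous (fun x : Fin 3 → ℝ => coeff β F * (x 0 ^ β 0 * x 1 ^ β 1 * x 2 ^ β 2)) := by
        fun_prop
      have h2 : Continuous (fun x : Fin 3 → ℝ =>
          ∑ α ∈ S, coeff α F * (x 0 ^ α 0 * x 1 ^ α 1 * x 2 ^ α 2)) := by
        fun_prop
      rw [A.KI_add h1 h2, ih, A.KI_smul, hD]
  have e : (fun x => evx x F) =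
      fun x => ∑ α ∈ F.support, coeff α F * (x 0 ^ α 0 * x 1 ^ α 1 * x 2 ^ α 2) := by
    funext x
    unfold evx
    rw [MvPolynomial.eval_eq']
    refine Finset.sum_congr rfl fun α _ => ?_
    rw [Fin.prod_univ_three]
  rw [e, hsum, facI, Finset.sum_div]
  refine Finset.sum_congr rfl fun α hα => ?_
  have hdeg : α 0 + α 1 + α 2 = d := by
    have h := hF (mem_support_iff.1 hα)
    rw [Finsupp.weight_apply, Finsupp.sum_fintype _ _ (by simp)] at h
    simpa [Fin.sum_univ_three] using h
  rw [hdeg, mul_div_assoc]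

end Pool.TRI
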