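import Pool.Agent.H69.TRI.StmtsP

/-!
# PERM: invariance of `KI` under permutations of the coordinates
-/

open MeasureTheory Set Filter Topology InnerProductSpace Metric
open scoped Real ComplexConjugate ContDiff Laplacian

namespace Pool.TRI.A

/-- rotated barycentric data -/
private noncomputable def PERM_rot {T : Set ℂ} (B : Bary T) : Bary T where
  g := fun k => B.g (k + 1)
  b := fun k => B.b (k + 1)
  sum_g := by
    have h := B.sum_g
    have e1 : (0 : Fin 3) + 1 = 1 := rfl
    have e2 : (1 : Fin 3) + 1 = 2 := rfl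
    have e3 : (2 : Fin 3) + 1 = 0 := rfl
    rw [e1, e2, e3, ← h]; ring
  sum_b := by
    have h := B.sum_b
    have e1 : (0 : Fin 3) + 1 = 1 := rfl
    have e2 : (1 : Fin 3) + 1 = 2 := rfl
    have e3 : (2 : Fin 3) + 1 = 0 := rfl
    rw [e1, e2, e3, ← h]; ring
  indep := by
    have e1 : (0 : Fin 3) + 1 = 1 := rfl
    have e2 : (1 : Fin 3) + 1 = 2 := rfl
    rw [e1, e2]
    have h := B.indep
    have hg : B.g 2 = - B.g 0 - B.g 1 := by
      have := B.sum_g
      linear_combination this
    rw [hg]
    intro h0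
    apply h
    rw [← h0]
    simp [Complex.mul_im]
    ring
  mem_iff := by
    intro z
    rw [B.mem_iff z]
    constructor
    · intro h k; exact h (k + 1)
    · intro h k
      have := h (k - 1)
      simpa using this

private theorem PERM_swap (F : (Fin 3 → ℝ) → ℝ) : KI (fun x => F ![x 0, x 2, x 1]) = KI F := by
  unfold KI
  congr 1
  funext s
  have h := intervalIntegral.integral_comp_sub_left (a := 0) (b := 1 - s)
    (fun t => F ![s, t, 1 - s - t]) (1 - s)
  simp only [sub_self, sub_zero] at h
  rw [← h]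
  congr 1
  funext t
  simp

theorem perm (hB : BaryTbStmt) (hC : ChvStmt) : PermStmt := by
  intro F hF
  refine ⟨?_, PERM_swap F⟩
  obtain ⟨B, -, -⟩ := hB 0 (by simp)
  have h1 := hC _ B (fun x => F (fun i => x (i + 1))) (by fun_prop)
  have h2 := hC _ (PERM_rot B) F hF
  have e : |(B.g 0 * conj (B.g 1)).im| = |((PERM_rot B).g 0 * conj ((PERM_rot B).g 1)).im| := by
    have hg : B.g 2 = - B.g 0 - B.g 1 := by
      have := B.sum_g
      linear_combination this
    have e0 : (PERM_rot B).g 0 = B.g 1 := rfl
    have e1 : (PERM_rot B).g 1 = B.g 2 := rfl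
    rw [e0, e1, hg]
    congr 1
    simp [Complex.mul_im]
    ring
  have hx : ∀ z, (fun i : Fin 3 => B.x (i + 1) z) = fun k => (PERM_rot B).x k z := by
    intro z; rfl
  simp only [hx] at h1
  rw [h1, ← e] at h2
  have hne : |(B.g 0 * conj (B.g 1)).im| ≠ 0 := abs_ne_zero.2 B.indep
  field_simp at h2
  exact h2

end Pool.TRI.A
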